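import Pool.Agent.H548R3.NoAP
import Pool.Agent.H548R3.PAP
import Pool.Agent.H548R3.PConstr
import Pool.Agent.H548R3.Snow

/-!
MP_f25c59_an, Q1. There is one metric space `M` (the metric space underlying a Banach space) such
that for every `p` in `(0, 1)` the Lipschitz free `p`-space over `M` fails the approximation property.
-/

set_option autoImplicit false

open Set Filter Topology
open Pool.Agent.H548R3.PFree Pool.Agent.H548R3.NoAP
open Pool.Agent.Helper362.Hap

namespace Pool.Agent.Results.MP_f25c59_an.FreePNoAP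

/-- the space of the test vectors -/
lemma not_hasAP {p : ℝ} (h0 : 0 < p) (h1 : p ≤ 1) (Z : Type) [NormedAddCommGroup Z] [Module ℝ Z]
    (δ : E → Z) (h : IsLipschitzFree p E 0 Z δ) : ¬ HasAP p Z := by
  have hp : Fact (0 < p ∧ p ≤ 1) := ⟨h0, h1⟩
  obtain ⟨β, hβ, -⟩ := h.lift (Snow p E) (isPBanach_snow p E) (toSnow : E → Snow p E) rfl
    ⟨1, fun x y => by
      rw [pnorm_snow, one_mul, dist_eq_norm]
      exact le_rfl⟩
  refine not_hasAP_of_section (X := E) h0 h.banach.1 δ zero_le_one (fun x y => ?_)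
    ((snowCLM p E).comp β) (fun x => ?_) (exists_data dat)
  · have h2 := h.isometric x y
    rw [dist_eq_norm] at h2
    rw [one_mul, ← h2, pnorm_rpow]
  · show ofSnow (β (δ x)) = x
    rw [hβ]
    rfl

/-- **MP_f25c59_an, Q1.** -/
theorem result : ∃ (M : Type) (_ : MetricSpace M) (o : M), ∀ p : ℝ, 0 < p → p < 1 →
    (∃ (Z : Type) (_ : NormedAddCommGroup Z) (_ : Module ℝ Z) (δ : M → Z),
      IsLipschitzFree p M o Z δ) ∧
    ∀ (Z : Type) [NormedAddCommGroup Z] [Module ℝ Z] (δ : M → Z),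
      IsLipschitzFree p M o Z δ → ¬ HasAP p Z := by
  refine ⟨E, inferInstance, 0, fun p h0 h1 => ⟨?_, fun Z _ _ δ h => not_hasAP h0 h1.le Z δ h⟩⟩
  have hp : Fact (0 < p ∧ p ≤ 1) := ⟨h0, h1.le⟩
  exact ⟨FF p E, inferInstance, inferInstance, fun x => cl x 0, isLipschitzFree 0⟩

end Pool.Agent.Results.MP_f25c59_an.FreePNoAP
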